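import Pool.Agent.N290.RM.Stm

/-!
# Project RM, GPG: averages of weights (helper881)
-/

set_option autoImplicit false

open Complex MeasureTheory Set Filter Topology
open scoped ENNReal

namespace Pool.Agent.N881.RM

open Pool.Agent.N290.RJ Pool.Agent.N290.RK Pool.Agent.N290.RL Pool.Agent.N290.RM

variable {d : ℕ}

theorem ker_meas (z : E d) : Measurable (N290.RJ.ker z) := by
  have h0 : Continuous (fun w : E d => N290.RJ.ip z w) :=
    ip_continuous.comp (by fun_prop : Continuous fun w : E d => (z, w))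
  have h1 : Continuous (Dl z) := by
    unfold Dl
    have := N_continuous (d := d)
    fun_prop
  have h2 : Measurable (fun w => Real.sqrt (Dl z w) ^ (2 * d + 1)) :=
    (h1.measurable.sqrt).pow_const _
  have h3 : Measurable (fun w => ‖1 - N290.RJ.ip z w‖) := (continuous_const.sub h0).norm.measurable
  unfold N290.RJ.ker
  exact (h3.pow_const d).div (h3.mul h2)

theorem ker_nonneg (z w : E d) : 0 ≤ N290.RJ.ker z w := by
  unfold N290.RJ.ker
  positivity

/-- the average of finitely many weights -/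
noncomputable def avg {n : ℕ} (v : Fin (n + 1) → E d → ℝ) (z : E d) : ℝ :=
  ((n : ℝ) + 1)⁻¹ * ∑ i, v i z

theorem le_avg {n : ℕ} {v : Fin (n + 1) → E d → ℝ} {z : E d} (hv : ∀ i, 0 ≤ v i z)
    (i : Fin (n + 1)) : v i z ≤ ((n : ℝ) + 1) * avg v z := by
  have hn : (0 : ℝ) < (n : ℝ) + 1 := by positivity
  have h1 : ((n : ℝ) + 1) * avg v z = ∑ i, v i z := by
    unfold avg
    rw [← mul_assoc, mul_inv_cancel₀ hn.ne', one_mul]
  rw [h1]
  exact Finset.single_le_sum (f := fun i => v i z) (fun i _ => hv i) (Finset.mem_univ i)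

theorem AW_avg {n : ℕ} {v : Fin (n + 1) → E d → ℝ} (hv : ∀ i, AW (v i)) : AW (avg v) := by
  have hn : (0 : ℝ) < (n : ℝ) + 1 := by positivity
  have hs : ContDiffOn ℝ 1 (fun z => ∑ i, v i z) (B d) := ContDiffOn.sum fun i _ => (hv i).a1
  refine ⟨contDiffOn_const.mul hs, fun z hz => ⟨?_, ?_⟩, fun z hz ξ => ?_⟩
  · have h1 : 0 < ∑ i, v i z :=
      Finset.sum_pos (fun i _ => ((hv i).a2 z hz).1) Finset.univ_nonempty
    unfold avg
    positivity
  · unfold avg
    rw [inv_mul_le_iff₀ hn, mul_one]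
    have h1 : ∑ i, v i z ≤ ∑ _i : Fin (n + 1), (1 : ℝ) :=
      Finset.sum_le_sum fun i _ => ((hv i).a2 z hz).2
    simpa using h1
  · have hd : ∀ i, DifferentiableAt ℝ (v i) z := fun i =>
      ((hv i).a1.contDiffAt (B_open.mem_nhds hz)).differentiableAt one_ne_zero
    have h1 : HasFDerivAt (avg v) (((n : ℝ) + 1)⁻¹ • ∑ i, fderiv ℝ (v i) z) z := by
      have h2 : HasFDerivAt (fun z => ∑ i, v i z) (∑ i, fderiv ℝ (v i) z) z :=
        HasFDerivAt.fun_sum fun i _ => (hd i).hasFDerivAt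
      exact h2.const_mul _
    rw [h1.fderiv]
    rw [smul_apply, ContinuousLinearMap.sum_apply, smul_eq_mul, abs_mul, abs_of_pos (inv_pos.2 hn)]
    unfold avg
    have h3 : |∑ i, fderiv ℝ (v i) z ξ| ≤ ∑ i, 1 / 256 * (v i z * len z ξ) :=
      (Finset.abs_sum_le_sum_abs _ _).trans (Finset.sum_le_sum fun i _ => (hv i).a3 z hz ξ)
    calc ((n : ℝ) + 1)⁻¹ * |∑ i, fderiv ℝ (v i) z ξ| ≤
        ((n : ℝ) + 1)⁻¹ * ∑ i, 1 / 256 * (v i z * len z ξ) :=
          mul_le_mul_of_nonneg_left h3 (inv_pos.2 hn).le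
      _ = 1 / 256 * (((n : ℝ) + 1)⁻¹ * (∑ i, v i z) * len z ξ) := by
          rw [← Finset.mul_sum, ← Finset.sum_mul]
          ring

theorem Tail_mono {τ τ' : ℝ → ℝ} {a : E d → ℝ} (h : Tail τ a) (hτ : ∀ κ, τ κ ≤ τ' κ) :
    Tail τ' a := fun κ hκ z hz => (h κ hκ z hz).trans (ENNReal.ofReal_le_ofReal (hτ κ))

theorem Tail_avg {n : ℕ} {v : Fin (n + 1) → E d → ℝ} {τ : ℝ → ℝ} (hv : ∀ i, AW (v i))
    (h : ∀ i, Tail τ (v i)) : Tail (fun κ => ((n : ℝ) + 1) * |τ κ|) (avg v) := by
  intro κ hκ z hz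
  have hn : (0 : ℝ) < (n : ℝ) + 1 := by positivity
  have hm : ∀ i, AEMeasurable (fun w : E d =>
      ENNReal.ofReal ((if 1 - N w ≤ κ then v i w ^ 2 else 0) * N290.RJ.ker z w))
      (volume.restrict (B d)) := by
    intro i
    have h1 : AEMeasurable (v i) (volume.restrict (B d)) :=
      (hv i).a1.continuousOn.aemeasurable B_meas
    have h2 : MeasurableSet {w : E d | 1 - N w ≤ κ} :=
      measurableSet_le (measurable_const.sub N_continuous.measurable) measurable_const
    have h3 : AEMeasurable (fun w : E d => if 1 - N w ≤ κ then v i w ^ 2 else 0)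
        (volume.restrict (B d)) := by
      have h4 : (fun w : E d => if 1 - N w ≤ κ then v i w ^ 2 else 0) =
          {w : E d | 1 - N w ≤ κ}.indicator (fun w => v i w ^ 2) := by
        funext w
        simp [Set.indicator]
      rw [h4]
      exact (h1.pow_const 2).indicator h2
    exact (h3.mul (ker_meas z).aemeasurable).ennreal_ofReal
  have hpt : ∀ w ∈ B d, ENNReal.ofReal ((if 1 - N w ≤ κ then avg v w ^ 2 else 0) *
      N290.RJ.ker z w) ≤ ∑ i, ENNReal.ofReal ((if 1 - N w ≤ κ then v i w ^ 2 else 0) *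
      N290.RJ.ker z w) := by
    intro w hw
    rw [← ENNReal.ofReal_sum_of_nonneg]
    · refine ENNReal.ofReal_le_ofReal ?_
      rw [← Finset.sum_mul]
      refine mul_le_mul_of_nonneg_right ?_ (ker_nonneg z w)
      split_ifs with hκw
      · have h1 := sq_sum_le_card_mul_sum_sq (s := Finset.univ) (f := fun i => v i w)
        rw [Finset.card_univ, Fintype.card_fin] at h1
        push_cast at h1
        have h2 : avg v w ^ 2 ≤ ((n : ℝ) + 1)⁻¹ * ∑ i, v i w ^ 2 := by
          unfold avg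
          rw [mul_pow]
          have h3 : ((n : ℝ) + 1)⁻¹ ^ 2 * (∑ i, v i w) ^ 2 ≤
              ((n : ℝ) + 1)⁻¹ ^ 2 * (((n : ℝ) + 1) * ∑ i, v i w ^ 2) :=
            mul_le_mul_of_nonneg_left h1 (by positivity)
          refine h3.trans (le_of_eq ?_)
          field_simp
        have h4 : 0 ≤ ∑ i, v i w ^ 2 := Finset.sum_nonneg fun i _ => sq_nonneg _
        have h5 : ((n : ℝ) + 1)⁻¹ ≤ 1 := by
          apply inv_le_one_of_one_le₀
          have : (0 : ℝ) ≤ n := Nat.cast_nonneg n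
          linarith
        nlinarith
      · simp
    · intro i _
      refine mul_nonneg ?_ (ker_nonneg z w)
      split_ifs
      · exact sq_nonneg _
      · exact le_rfl
  calc ∫⁻ w in B d, ENNReal.ofReal ((if 1 - N w ≤ κ then avg v w ^ 2 else 0) * N290.RJ.ker z w)
      ≤ ∫⁻ w in B d, ∑ i, ENNReal.ofReal ((if 1 - N w ≤ κ then v i w ^ 2 else 0) *
          N290.RJ.ker z w) := setLIntegral_mono' B_meas hpt
    _ = ∑ i, ∫⁻ w in B d, ENNReal.ofReal ((if 1 - N w ≤ κ then v i w ^ 2 else 0) *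
          N290.RJ.ker z w) := lintegral_finset_sum' _ fun i _ => hm i
    _ ≤ ∑ _i : Fin (n + 1), ENNReal.ofReal |τ κ| := Finset.sum_le_sum fun i _ =>
          (h i κ hκ z hz).trans (ENNReal.ofReal_le_ofReal (le_abs_self _))
    _ = ENNReal.ofReal (((n : ℝ) + 1) * |τ κ|) := by
          rw [Finset.sum_const, Finset.card_univ, Fintype.card_fin, nsmul_eq_mul,
            ENNReal.ofReal_mul hn.le]
          congr 1
          rw [show ((n : ℝ) + 1) = ((n + 1 : ℕ) : ℝ) by push_cast; ring, ENNReal.ofReal_natCast]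

theorem Van_mul {τ τ' : ℝ → ℝ} (h : Van τ) (h' : Van τ') (c : ℝ) :
    Van (fun κ => c * |(|τ κ| + |τ' κ|)|) := by
  unfold Van at *
  have h1 := ((h.abs.add h'.abs).abs).const_mul c
  simpa using h1

/-- the gradient of the linear form -/
theorem ip_le_bw {p : E d} (hp : nm p = 1) {z : E d} (hz : z ∈ B d) (ξ : E d)
    (cs : ‖ip ξ p‖ ≤ nm ξ * nm p) : ‖ip ξ p‖ ≤ bw z * len z ξ := by
  rw [hp, mul_one] at cs
  refine cs.trans ?_
  have hz0 : 0 < 1 - N z := sub_pos.2 hz
  have hz1 : 1 - N z ≤ 1 := by linarith [N_nonneg z]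
  have h1 : nm ξ ≤ Real.sqrt (1 - N z) * len z ξ := by
    unfold len
    rw [← Real.sqrt_mul hz0.le]
    refine Real.sqrt_le_sqrt ?_
    unfold len2
    have h2 : 0 ≤ ‖ip ξ z‖ ^ 2 / (1 - N z) ^ 2 := by positivity
    have h3 : (1 - N z) * (N ξ / (1 - N z)) = N ξ := by field_simp
    nlinarith
  have h2 : Real.sqrt (1 - N z) ≤ bw z := by
    unfold bw
    rw [Real.sqrt_eq_rpow]
    exact Real.rpow_le_rpow_of_exponent_ge hz0 hz1 (by norm_num)
  exact h1.trans (mul_le_mul_of_nonneg_right h2 (len_nonneg z ξ))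

end Pool.Agent.N881.RM
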